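import Mathlib

set_option autoImplicit false

/-!
# MP_3d59a4_gt: products of two continua need not be lambda-connected

`X` = inverse limit of the tent map on `[0,1]` (Knaster's buckethandle continuum).
For EVERY nonempty Hausdorff space `Y` the product `X × Y` is not lambda-connected.
-/

open Set Topology

namespace Pool.Agent.Results.MP_3d59a4_gt.NotLambdaConnected

/-- A subcontinuum: a compact connected (in particular nonempty) subset. -/
def IsSubcontinuum {Z : Type*} [TopologicalSpace Z] (K : Set Z) : Prop :=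
  IsCompact K ∧ IsConnected K

/-- `K` is the union of two proper subcontinua of `K`. -/
def Decomposable {Z : Type*} [TopologicalSpace Z] (K : Set Z) : Prop :=
  ∃ A B : Set Z, IsSubcontinuum A ∧ IsSubcontinuum B ∧ A ≠ K ∧ B ≠ K ∧ A ∪ B = K

/-- Every nondegenerate subcontinuum of `K` is decomposable. -/
def HereditarilyDecomposable {Z : Type*} [TopologicalSpace Z] (K : Set Z) : Prop :=
  ∀ L : Set Z, L ⊆ K → IsSubcontinuum L → L.Nontrivial → Decomposable L

/-- Any two points lie in a common hereditarily decomposable subcontinuum. -/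
def LambdaConnected (Z : Type*) [TopologicalSpace Z] : Prop :=
  ∀ p q : Z, ∃ K : Set Z, IsSubcontinuum K ∧ HereditarilyDecomposable K ∧ p ∈ K ∧ q ∈ K

/-! ### General facts -/

theorem preconnected_iInter {Z ι : Type*} [TopologicalSpace Z] [T2Space Z] [Nonempty ι]
    (V : ι → Set Z) (hd : Directed (· ⊇ ·) V) (hc : ∀ i, IsCompact (V i))
    (hp : ∀ i, IsPreconnected (V i)) : IsPreconnected (⋂ i, V i) := by
  have hcl : ∀ i, IsClosed (V i) := fun i => (hc i).isClosed
  have hIc : IsCompact (⋂ i, V i) := by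
    obtain ⟨i0⟩ := ‹Nonempty ι›
    exact (hc i0).of_isClosed_subset (isClosed_iInter hcl) (iInter_subset V i0)
  rw [isPreconnected_closed_iff]
  intro A B hA hB hAB hIA hIB
  by_contra hne
  rw [not_nonempty_iff_eq_empty] at hne
  have h1 : IsCompact ((⋂ i, V i) ∩ A) := hIc.inter_right hA
  have h2 : IsCompact ((⋂ i, V i) ∩ B) := hIc.inter_right hB
  have hdis : Disjoint ((⋂ i, V i) ∩ A) ((⋂ i, V i) ∩ B) := by
    rw [Set.disjoint_left]
    intro x hx hy
    have : x ∈ (⋂ i, V i) ∩ (A ∩ B) := ⟨hx.1, hx.2, hy.2⟩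
    rw [hne] at this
    exact this
  obtain ⟨U, W, hU, hW, hIU, hIW, hUW⟩ := SeparatedNhds.of_isCompact_isCompact h1 h2 hdis
  have hsub : (⋂ i, V i) ⊆ U ∪ W := by
    intro x hx
    rcases hAB hx with h | h
    · exact Or.inl (hIU ⟨hx, h⟩)
    · exact Or.inr (hIW ⟨hx, h⟩)
  obtain ⟨i, hi⟩ := exists_subset_nhds_of_isCompact' hd hc hcl
    (U := U ∪ W) (fun x hx => (hU.union hW).mem_nhds (hsub hx))
  have hpi := hp i U W hU hW hi
  obtain ⟨a, ha, ha'⟩ := hIA
  obtain ⟨b, hb, hb'⟩ := hIB
  obtain ⟨z, hz, hz1, hz2⟩ := hpi ⟨a, mem_iInter.1 ha i, hIU ⟨ha, ha'⟩⟩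
    ⟨b, mem_iInter.1 hb i, hIW ⟨hb, hb'⟩⟩
  exact (Set.disjoint_left.1 hUW) hz1 hz2

/-- A continuum mapping onto an indecomposable continuum contains an indecomposable
subcontinuum mapping onto it. -/
theorem exists_indecomposable {Z X : Type*} [TopologicalSpace Z] [T2Space Z]
    [TopologicalSpace X] [T2Space X]
    (hX : ∀ A B : Set X, IsSubcontinuum A → IsSubcontinuum B → A ∪ B = univ → A = univ ∨ B = univ)
    (f : Z → X) (hf : Continuous f) (K : Set Z) (hK : IsSubcontinuum K) (hfK : f '' K = univ) :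
    ∃ L ⊆ K, IsSubcontinuum L ∧ f '' L = univ ∧ ¬ Decomposable L := by
  let S : Set (Set Z) := {L | L ⊆ K ∧ IsSubcontinuum L ∧ f '' L = univ}
  have hKS : K ∈ S := ⟨subset_rfl, hK, hfK⟩
  obtain ⟨L, hLK, hL⟩ := zorn_superset_nonempty S (by
    intro c hcS hchain hne
    refine ⟨⋂₀ c, ?_, fun s hs => sInter_subset_of_mem hs⟩
    have : Nonempty c := hne.to_subtype
    have hd : Directed (· ⊇ ·) (fun i : c => (i : Set Z)) := by
      intro a b
      rcases hchain.total a.2 b.2 with h | h
      · exact ⟨a, subset_rfl, h⟩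
      · exact ⟨b, h, subset_rfl⟩
    have hcc : ∀ i : c, IsCompact (i : Set Z) := fun i => (hcS i.2).2.1.1
    have hcl : ∀ i : c, IsClosed (i : Set Z) := fun i => (hcc i).isClosed
    have hpc : ∀ i : c, IsPreconnected (i : Set Z) := fun i => (hcS i.2).2.1.2.isPreconnected
    have himg : f '' (⋂₀ c) = univ := by
      rw [eq_univ_iff_forall]
      intro x
      have hne' : (⋂ i : c, ((i : Set Z) ∩ f ⁻¹' {x})).Nonempty := by
        apply IsCompact.nonempty_iInter_of_directed_nonempty_isCompact_isClosed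
        · intro a b
          obtain ⟨d, hd1, hd2⟩ := hd a b
          exact ⟨d, inter_subset_inter_left _ hd1, inter_subset_inter_left _ hd2⟩
        · intro i
          have : x ∈ f '' (i : Set Z) := by rw [(hcS i.2).2.2]; trivial
          obtain ⟨z, hz, hzx⟩ := this
          exact ⟨z, hz, hzx⟩
        · intro i
          exact (hcc i).inter_right (isClosed_singleton.preimage hf)
        · intro i
          exact (hcl i).inter (isClosed_singleton.preimage hf)
      obtain ⟨z, hz⟩ := hne'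
      rw [mem_iInter] at hz
      refine ⟨z, ?_, ?_⟩
      · intro s hs
        exact (hz ⟨s, hs⟩).1
      · obtain ⟨s, hs⟩ := hne
        exact (hz ⟨s, hs⟩).2
    refine ⟨?_, ⟨?_, ?_, ?_⟩, himg⟩
    · obtain ⟨s, hs⟩ := hne
      exact (sInter_subset_of_mem hs).trans (hcS hs).1
    · obtain ⟨s, hs⟩ := hne
      refine (hcS hs).2.1.1.of_isClosed_subset ?_ (sInter_subset_of_mem hs)
      exact isClosed_sInter fun t ht => hcl ⟨t, ht⟩
    · obtain ⟨z0, _⟩ := hK.2.nonempty
      have : f z0 ∈ f '' (⋂₀ c) := by rw [himg]; trivial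
      obtain ⟨z, hz, _⟩ := this
      exact ⟨z, hz⟩
    · rw [sInter_eq_iInter]
      exact preconnected_iInter _ hd hcc hpc) K hKS
  have hLS : L ∈ S := hL.prop
  refine ⟨L, hLS.1, hLS.2.1, hLS.2.2, ?_⟩
  rintro ⟨A, B, hA, hB, hAL, hBL, hAB⟩
  have hAsub : A ⊆ L := hAB ▸ subset_union_left
  have hBsub : B ⊆ L := hAB ▸ subset_union_right
  have hfA : IsSubcontinuum (f '' A) := ⟨hA.1.image hf, hA.2.image f hf.continuousOn⟩
  have hfB : IsSubcontinuum (f '' B) := ⟨hB.1.image hf, hB.2.image f hf.continuousOn⟩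
  have hun : f '' A ∪ f '' B = univ := by rw [← image_union, hAB, hLS.2.2]
  rcases hX _ _ hfA hfB hun with h | h
  · have hAS : A ∈ S := ⟨hAsub.trans hLS.1, hA, h⟩
    exact hAL (Subset.antisymm hAsub (hL.le_of_le hAS hAsub))
  · have hBS : B ∈ S := ⟨hBsub.trans hLS.1, hB, h⟩
    exact hBL (Subset.antisymm hBsub (hL.le_of_le hBS hBsub))

/-! ### The tent-map inverse limit -/

/-- The tent map. -/
noncomputable def tent (t : ℝ) : ℝ := 1 - |2 * t - 1|

theorem tent_cont : Continuous tent := by unfold tent; fun_prop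

theorem tent_mem {t : ℝ} (ht : t ∈ Icc (0:ℝ) 1) : tent t ∈ Icc (0:ℝ) 1 := by
  unfold tent
  obtain ⟨h0, h1⟩ := ht
  have : |2 * t - 1| ≤ 1 := by rw [abs_le]; constructor <;> linarith
  have := abs_nonneg (2 * t - 1)
  constructor <;> linarith

theorem tent_left {t : ℝ} (ht : t ≤ 1/2) : tent t = 2 * t := by
  unfold tent; rw [abs_of_nonpos (by linarith)]; ring

theorem tent_right {t : ℝ} (ht : 1/2 ≤ t) : tent t = 2 - 2 * t := by
  unfold tent; rw [abs_of_nonneg (by linarith)]; ring

/-- The points of the inverse limit of `[0,1] ← [0,1] ← ⋯` under the tent map. -/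
def knaster : Set (ℕ → ℝ) := {x | (∀ n, x n ∈ Icc (0:ℝ) 1) ∧ ∀ n, x n = tent (x (n+1))}

/-- The finite approximations. -/
def approx (N : ℕ) : Set (ℕ → ℝ) :=
  {x | (∀ n, x n ∈ Icc (0:ℝ) 1) ∧ ∀ n < N, x n = tent (x (n+1))}

theorem cube_compact : IsCompact {x : ℕ → ℝ | ∀ n, x n ∈ Icc (0:ℝ) 1} := by
  have : {x : ℕ → ℝ | ∀ n, x n ∈ Icc (0:ℝ) 1} = Set.pi univ (fun _ => Icc (0:ℝ) 1) := by
    ext x; simp only [Set.mem_ofPred_eq, Set.mem_univ_pi]
  rw [this]
  exact isCompact_univ_pi fun _ => isCompact_Icc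

theorem approx_closed (N : ℕ) : IsClosed (approx N) := by
  have : approx N = (⋂ n, {x : ℕ → ℝ | x n ∈ Icc (0:ℝ) 1}) ∩
      ⋂ n, ⋂ (_ : n < N), {x : ℕ → ℝ | x n = tent (x (n+1))} := by
    ext x; simp [approx]
  rw [this]
  refine (isClosed_iInter fun n => isClosed_Icc.preimage (continuous_apply n)).inter ?_
  refine isClosed_iInter fun n => isClosed_iInter fun _ => ?_
  exact isClosed_eq (continuous_apply n) (tent_cont.comp (continuous_apply (n+1)))

theorem approx_compact (N : ℕ) : IsCompact (approx N) :=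
  cube_compact.of_isClosed_subset (approx_closed N) fun _ hx => hx.1

/-- The retraction of the cube onto the `N`-th approximation. -/
noncomputable def retr (N : ℕ) (x : ℕ → ℝ) : ℕ → ℝ :=
  fun n => if n < N then tent^[N - n] (x N) else x n

theorem retr_cont (N : ℕ) : Continuous (retr N) := by
  refine continuous_pi fun n => ?_
  unfold retr
  by_cases h : n < N
  · simp only [h, if_true]
    exact (tent_cont.iterate (N - n)).comp (continuous_apply N)
  · simp only [h, if_false]
    exact continuous_apply n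

theorem iterate_mem (k : ℕ) {t : ℝ} (ht : t ∈ Icc (0:ℝ) 1) : tent^[k] t ∈ Icc (0:ℝ) 1 := by
  induction k with
  | zero => simpa using ht
  | succ k ih => rw [Function.iterate_succ_apply']; exact tent_mem ih

theorem retr_image (N : ℕ) : retr N '' {x : ℕ → ℝ | ∀ n, x n ∈ Icc (0:ℝ) 1} = approx N := by
  apply Subset.antisymm
  · rintro _ ⟨x, hx, rfl⟩
    refine ⟨fun n => ?_, fun n hn => ?_⟩
    · unfold retr
      split_ifs
      · exact iterate_mem _ (hx N)
      · exact hx n
    · unfold retr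
      rw [if_pos hn]
      by_cases h : n + 1 < N
      · rw [if_pos h]
        have : N - n = (N - (n+1)) + 1 := by omega
        rw [this, Function.iterate_succ_apply']
      · rw [if_neg h]
        have : n + 1 = N := by omega
        subst this
        simp
  · intro x hx
    refine ⟨x, hx.1, ?_⟩
    funext n
    unfold retr
    split_ifs with h
    · have key : ∀ k ≤ N, tent^[k] (x N) = x (N - k) := by
        intro k
        induction k with
        | zero => intro _; simp
        | succ k ih =>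
          intro hk
          rw [Function.iterate_succ_apply', ih (by omega)]
          have h1 := hx.2 (N - (k+1)) (by omega)
          rw [h1]
          have : N - (k + 1) + 1 = N - k := by omega
          rw [this]
      rw [key (N - n) (by omega)]
      have : N - (N - n) = n := by omega
      rw [this]
    · rfl

theorem cube_preconnected : IsPreconnected {x : ℕ → ℝ | ∀ n, x n ∈ Icc (0:ℝ) 1} := by
  have : {x : ℕ → ℝ | ∀ n, x n ∈ Icc (0:ℝ) 1} = Set.pi univ (fun _ => Icc (0:ℝ) 1) := by
    ext x; simp only [Set.mem_ofPred_eq, Set.mem_univ_pi]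
  rw [this]
  exact isPreconnected_univ_pi fun _ => isPreconnected_Icc

theorem approx_preconnected (N : ℕ) : IsPreconnected (approx N) := by
  rw [← retr_image]
  exact cube_preconnected.image _ (retr_cont N).continuousOn

theorem knaster_eq : knaster = ⋂ N, approx N := by
  ext x
  simp only [knaster, approx, mem_iInter, mem_ofPred_eq]
  constructor
  · intro h N
    exact ⟨h.1, fun n _ => h.2 n⟩
  · intro h
    exact ⟨(h 0).1, fun n => (h (n+1)).2 n (by omega)⟩

theorem knaster_preconnected : IsPreconnected knaster := by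
  rw [knaster_eq]
  apply preconnected_iInter
  · intro a b
    refine ⟨max a b, ?_, ?_⟩
    · intro x hx
      exact ⟨hx.1, fun n hn => hx.2 n (lt_of_lt_of_le hn (le_max_left _ _))⟩
    · intro x hx
      exact ⟨hx.1, fun n hn => hx.2 n (lt_of_lt_of_le hn (le_max_right _ _))⟩
  · exact approx_compact
  · exact approx_preconnected

theorem knaster_compact : IsCompact knaster := by
  rw [knaster_eq]
  exact (approx_compact 0).of_isClosed_subset (isClosed_iInter approx_closed)
    (iInter_subset _ 0)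

/-- The constant point `0`. -/
theorem zero_mem : (fun _ => (0:ℝ)) ∈ knaster := by
  refine ⟨fun n => ⟨le_refl _, zero_le_one⟩, fun n => ?_⟩
  simp [tent]

/-- The constant point `2/3`. -/
theorem fix_mem : (fun _ => (2/3:ℝ)) ∈ knaster := by
  refine ⟨fun n => by norm_num, fun n => ?_⟩
  rw [tent_right (by norm_num)]; norm_num

/-- The point with coordinates `0,…,0,1,1/2,1/4,…` (`1` at position `m`). -/
noncomputable def spike (m : ℕ) : ℕ → ℝ := fun k => if k < m then 0 else (1/2)^(k-m)

theorem spike_mem (m : ℕ) : spike m ∈ knaster := by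
  refine ⟨fun n => ?_, fun n => ?_⟩
  · unfold spike
    split_ifs
    · exact ⟨le_refl _, zero_le_one⟩
    · exact ⟨by positivity, pow_le_one₀ (by norm_num) (by norm_num)⟩
  · unfold spike
    by_cases h1 : n + 1 < m
    · rw [if_pos (by omega), if_pos h1]; simp [tent]
    · rw [if_neg h1]
      by_cases h2 : n < m
      · rw [if_pos h2]
        have : n + 1 - m = 0 := by omega
        rw [this]
        simp [tent]; norm_num
      · rw [if_neg h2]
        have h3 : n + 1 - m = (n - m) + 1 := by omega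
        rw [h3, pow_succ]
        have h4 : ((1:ℝ)/2)^(n-m) ≤ 1 := pow_le_one₀ (by norm_num) (by norm_num)
        rw [tent_left (by linarith)]
        ring

/-- The type of points of Knaster's continuum. -/
abbrev X : Type := knaster

instance : CompactSpace X := isCompact_iff_compactSpace.1 knaster_compact
instance : PreconnectedSpace X := isPreconnected_iff_preconnectedSpace.1 knaster_preconnected

/-- the `n`-th coordinate -/
def co (n : ℕ) (x : X) : ℝ := x.1 n

theorem co_cont (n : ℕ) : Continuous (co n) := (continuous_apply n).comp continuous_subtype_val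

theorem co_succ (n : ℕ) (x : X) : co n x = tent (co (n+1) x) := x.2.2 n

/-- A compact set of points whose coordinate projections are infinitely often onto is everything. -/
theorem eq_univ_of_onto (C : Set X) (hC : IsCompact C)
    (h : ∀ N, ∃ n ≥ N, Icc (0:ℝ) 1 ⊆ co n '' C) : C = univ := by
  rw [eq_univ_iff_forall]
  intro x
  have hmono : ∀ n, {c : X | c ∈ C ∧ co (n+1) c = co (n+1) x} ⊆ {c : X | c ∈ C ∧ co n c = co n x} := by
    rintro n c ⟨hc, hcx⟩
    refine ⟨hc, ?_⟩
    rw [co_succ, hcx, ← co_succ]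
  have hanti : ∀ m n, m ≤ n →
      {c : X | c ∈ C ∧ co n c = co n x} ⊆ {c : X | c ∈ C ∧ co m c = co m x} := by
    intro m n hmn
    induction hmn with
    | refl => exact subset_rfl
    | step _ ih => exact (hmono _).trans ih
  have hclosed : ∀ n, IsClosed {c : X | c ∈ C ∧ co n c = co n x} := by
    intro n
    exact hC.isClosed.inter (isClosed_eq (co_cont n) continuous_const)
  have hne : (⋂ n, {c : X | c ∈ C ∧ co n c = co n x}).Nonempty := by
    apply IsCompact.nonempty_iInter_of_sequence_nonempty_isCompact_isClosed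
    · exact hmono
    · intro n
      obtain ⟨m, hm, hon⟩ := h n
      obtain ⟨c, hc, hcx⟩ := hon (x.2.1 m)
      exact ⟨c, hanti n m hm ⟨hc, hcx⟩⟩
    · exact hC.of_isClosed_subset (hclosed 0) fun c hc => hc.1
    · exact hclosed
  obtain ⟨c, hc⟩ := hne
  rw [mem_iInter] at hc
  have : c = x := by
    apply Subtype.ext
    funext n
    exact (hc n).2
  rw [← this]
  exact (hc 0).1

theorem onto_of_left (n : ℕ) (C : Set X) (h : Icc (0:ℝ) (1/2) ⊆ co (n+1) '' C) :
    Icc (0:ℝ) 1 ⊆ co n '' C := by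
  intro t ht
  obtain ⟨c, hc, hct⟩ := h (show t/2 ∈ Icc (0:ℝ) (1/2) from ⟨by linarith [ht.1], by linarith [ht.2]⟩)
  refine ⟨c, hc, ?_⟩
  rw [co_succ, hct, tent_left (by linarith [ht.2])]
  ring

theorem onto_of_right (n : ℕ) (C : Set X) (h : Icc (1/2:ℝ) 1 ⊆ co (n+1) '' C) :
    Icc (0:ℝ) 1 ⊆ co n '' C := by
  intro t ht
  obtain ⟨c, hc, hct⟩ := h (show 1 - t/2 ∈ Icc (1/2:ℝ) 1 from
    ⟨by linarith [ht.2], by linarith [ht.1]⟩)
  refine ⟨c, hc, ?_⟩
  rw [co_succ, hct, tent_right (by linarith [ht.2])]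
  ring

theorem onto_of_two (n : ℕ) (C : Set X) (hC : IsPreconnected C) (a b : X) (ha : a ∈ C) (hb : b ∈ C)
    (h : (co (n+1) a = 0 ∧ (1/2 ≤ co (n+1) b)) ∨ (co (n+1) a = 1/2 ∧ co (n+1) b = 1)) :
    Icc (0:ℝ) 1 ⊆ co n '' C := by
  have hp : IsPreconnected (co (n+1) '' C) := hC.image _ (co_cont _).continuousOn
  have hI : Icc (co (n+1) a) (co (n+1) b) ⊆ co (n+1) '' C :=
    hp.Icc_subset (mem_image_of_mem _ ha) (mem_image_of_mem _ hb)
  rcases h with ⟨h1, h2⟩ | ⟨h1, h2⟩
  · rw [h1] at hI
    exact onto_of_left n C ((Icc_subset_Icc_right h2).trans hI)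
  · rw [h1, h2] at hI
    exact onto_of_right n C hI

theorem indecomposable (A B : Set X) (hA : IsSubcontinuum A) (hB : IsSubcontinuum B)
    (hAB : A ∪ B = univ) : A = univ ∨ B = univ := by
  have key : ∀ n, Icc (0:ℝ) 1 ⊆ co n '' A ∨ Icc (0:ℝ) 1 ⊆ co n '' B := by
    intro n
    have hz : (⟨_, zero_mem⟩ : X) ∈ A ∪ B := by rw [hAB]; trivial
    have h1 : (⟨_, spike_mem n⟩ : X) ∈ A ∪ B := by rw [hAB]; trivial
    have h2 : (⟨_, spike_mem (n+1)⟩ : X) ∈ A ∪ B := by rw [hAB]; trivial
    have cz : co (n+1) (⟨_, zero_mem⟩ : X) = 0 := rfl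
    have c1 : co (n+1) (⟨_, spike_mem n⟩ : X) = 1/2 := by
      simp [co, spike]
    have c2 : co (n+1) (⟨_, spike_mem (n+1)⟩ : X) = 1 := by
      simp [co, spike]
    have pA := hA.2.isPreconnected
    have pB := hB.2.isPreconnected
    rcases hz with hz | hz <;> rcases h1 with h1 | h1 <;> rcases h2 with h2 | h2
    · exact Or.inl (onto_of_two n A pA _ _ hz h1 (Or.inl ⟨cz, by rw [c1]⟩))
    · exact Or.inl (onto_of_two n A pA _ _ hz h1 (Or.inl ⟨cz, by rw [c1]⟩))
    · exact Or.inl (onto_of_two n A pA _ _ hz h2 (Or.inl ⟨cz, by rw [c2]; norm_num⟩))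
    · exact Or.inr (onto_of_two n B pB _ _ h1 h2 (Or.inr ⟨c1, c2⟩))
    · exact Or.inl (onto_of_two n A pA _ _ h1 h2 (Or.inr ⟨c1, c2⟩))
    · exact Or.inr (onto_of_two n B pB _ _ hz h2 (Or.inl ⟨cz, by rw [c2]; norm_num⟩))
    · exact Or.inr (onto_of_two n B pB _ _ hz h1 (Or.inl ⟨cz, by rw [c1]⟩))
    · exact Or.inr (onto_of_two n B pB _ _ hz h1 (Or.inl ⟨cz, by rw [c1]⟩))
  by_cases hinf : ∀ N, ∃ n ≥ N, Icc (0:ℝ) 1 ⊆ co n '' A
  · exact Or.inl (eq_univ_of_onto A hA.1 hinf)
  · right
    push Not at hinf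
    obtain ⟨N, hN⟩ := hinf
    refine eq_univ_of_onto B hB.1 fun M => ⟨max M N, le_max_left _ _, ?_⟩
    exact (key (max M N)).resolve_left (hN _ (le_max_right _ _))

theorem irreducible (C : Set X) (hC : IsSubcontinuum C) (h0 : (⟨_, zero_mem⟩ : X) ∈ C)
    (h1 : (⟨_, fix_mem⟩ : X) ∈ C) : C = univ := by
  refine eq_univ_of_onto C hC.1 fun N => ⟨N, le_refl _, ?_⟩
  refine onto_of_two N C hC.2.isPreconnected _ _ h0 h1 (Or.inl ⟨rfl, ?_⟩)
  show (1/2:ℝ) ≤ 2/3
  norm_num

/-- Negative answer to Q1, in a strong form: there is a nondegenerate continuum `X` (the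
inverse limit of the tent map) such that for EVERY nonempty Hausdorff space `Y`, in particular
for every nondegenerate continuum `Y`, there are two points of `X × Y` that lie in no
hereditarily decomposable subcontinuum of `X × Y`. -/
theorem main (Y : Type*) [TopologicalSpace Y] [T2Space Y] (y y' : Y) :
    ¬ ∃ K : Set (X × Y), IsSubcontinuum K ∧ HereditarilyDecomposable K ∧
      ((⟨_, zero_mem⟩ : X), y) ∈ K ∧ ((⟨_, fix_mem⟩ : X), y') ∈ K := by
  rintro ⟨K, hK, hhd, hp, hq⟩
  have hf : Continuous (Prod.fst : X × Y → X) := continuous_fst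
  have hfK : Prod.fst '' K = (univ : Set X) := by
    apply irreducible
    · exact ⟨hK.1.image hf, hK.2.image _ hf.continuousOn⟩
    · exact ⟨_, hp, rfl⟩
    · exact ⟨_, hq, rfl⟩
  obtain ⟨L, hLK, hL, hfL, hnd⟩ := exists_indecomposable indecomposable Prod.fst hf K hK hfK
  apply hnd
  apply hhd L hLK hL
  obtain ⟨a, ha, ha'⟩ : (⟨_, zero_mem⟩ : X) ∈ Prod.fst '' L := by rw [hfL]; trivial
  obtain ⟨b, hb, hb'⟩ : (⟨_, fix_mem⟩ : X) ∈ Prod.fst '' L := by rw [hfL]; trivial
  refine ⟨a, ha, b, hb, ?_⟩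
  intro hab
  rw [hab, hb'] at ha'
  have := congrArg (co 0) ha'
  change (2/3:ℝ) = 0 at this
  norm_num at this

/-- There is a nondegenerate metric continuum `X` such that for every nonempty Hausdorff space
`Y` (in particular for every nondegenerate metric continuum `Y`) the product `X × Y` is not
lambda-connected. -/
theorem result : ∃ (X : Type) (_ : MetricSpace X),
    CompactSpace X ∧ ConnectedSpace X ∧ Nontrivial X ∧
      ∀ (Y : Type) [TopologicalSpace Y] [T2Space Y] [Nonempty Y], ¬ LambdaConnected (X × Y) := by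
  refine ⟨X, TopologicalSpace.metrizableSpaceMetric _, inferInstance, ?_, ?_, ?_⟩
  · have : Nonempty X := ⟨⟨_, zero_mem⟩⟩
    exact ConnectedSpace.mk inferInstance
  · refine ⟨⟨_, zero_mem⟩, ⟨_, fix_mem⟩, ?_⟩
    intro h
    have := congrArg (co 0) h
    change (0:ℝ) = 2/3 at this
    norm_num at this
  · intro Y _ _ _ h
    obtain ⟨y⟩ := ‹Nonempty Y›
    exact main Y y y (h _ _)

end Pool.Agent.Results.MP_3d59a4_gt.NotLambdaConnected
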